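import Mathlib

/-!
# Compactible relations: complements of intervals are finite disjoint unions of intervals

For every relation of finite arity whose interval complements are finite unions of intervals,
every interval complement is a finite union of pairwise disjoint intervals.
-/

namespace Pool.Agent.Results.MP_a8ef43_co.DisjointComplements

open Set Classical

universe u

/-- `f` restricts to a bijection of `X` onto `Y` which is an isomorphism of the restriction of the
relation `A` to `X` onto the restriction of `A` to `Y`. -/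
def LocalAut {E : Type u} {n : ℕ} (A : Set (Fin n → E)) (X Y : Set E) (f : E → E) : Prop :=
  Set.BijOn f X Y ∧
    ∀ t : Fin n → E, (∀ i, t i ∈ X) → (t ∈ A ↔ (fun i => f (t i)) ∈ A)

/-- The map `f` on `D`, extended by the identity outside `D`. -/
noncomputable def extId {E : Type u} (D : Set E) (f : E → E) : E → E :=
  fun x => if x ∈ D then f x else x

/-- `D` is an interval of the relation `A`: every local automorphism of the restriction of `A` to
`D` extends, by the identity outside `D`, to a local automorphism of `A`. -/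
def IsInterval {E : Type u} {n : ℕ} (A : Set (Fin n → E)) (D : Set E) : Prop :=
  ∀ (X Y : Set E) (f : E → E), X ⊆ D → Y ⊆ D → LocalAut A X Y f →
    LocalAut A (X ∪ Dᶜ) (Y ∪ Dᶜ) (extId D f)

/-- The complement of every interval is a union of finitely many intervals. -/
def Compactible {E : Type u} {n : ℕ} (A : Set (Fin n → E)) : Prop :=
  ∀ D : Set E, IsInterval A D →
    ∃ F : Set (Set E), F.Finite ∧ (∀ I ∈ F, IsInterval A I) ∧ ⋃₀ F = Dᶜ

section

variable {E : Type u} {n : ℕ}

/-- working form of the definition of an interval -/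
def Itv (A : Set (Fin n → E)) (D : Set E) : Prop :=
  ∀ (X : Set E) (f : E → E), X ⊆ D → MapsTo f X D → InjOn f X →
    (∀ t : Fin n → E, (∀ i, t i ∈ X) → (t ∈ A ↔ (fun i => f (t i)) ∈ A)) →
    ∀ t : Fin n → E, (∀ i, t i ∈ X ∪ Dᶜ) → (t ∈ A ↔ (fun i => extId D f (t i)) ∈ A)

lemma extId_mem {D : Set E} {f : E → E} {x : E} (h : x ∈ D) : extId D f x = f x := by
  simp [extId, h]

lemma extId_not {D : Set E} {f : E → E} {x : E} (h : x ∉ D) : extId D f x = x := by
  simp [extId, h]

lemma itv_iff (A : Set (Fin n → E)) (D : Set E) : IsInterval A D ↔ Itv A D := by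
  constructor
  · intro h X f hX hf hinj hA t ht
    exact (h X (f '' X) f hX (by rintro _ ⟨x, hx, rfl⟩; exact hf hx)
      ⟨hinj.bijOn_image, hA⟩).2 t ht
  · intro h X Y f hX hY hl
    obtain ⟨hb, hA⟩ := hl
    refine ⟨⟨?_, ?_, ?_⟩, h X f hX (fun x hx => hY (hb.1 hx)) hb.2.1 hA⟩
    · rintro x (hx | hx)
      · rw [extId_mem (hX hx)]; exact Or.inl (hb.1 hx)
      · rw [extId_not hx]; exact Or.inr hx
    · rintro x hx y hy hxy
      rcases hx with hx | hx <;> rcases hy with hy | hy
      · rw [extId_mem (hX hx), extId_mem (hX hy)] at hxy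
        exact hb.2.1 hx hy hxy
      · rw [extId_mem (hX hx), extId_not hy] at hxy
        exact absurd (hY (hb.1 hx)) (by rw [hxy]; exact hy)
      · rw [extId_not hx, extId_mem (hX hy)] at hxy
        exact absurd (hY (hb.1 hy)) (by rw [← hxy]; exact hx)
      · rw [extId_not hx, extId_not hy] at hxy
        exact hxy
    · rintro y (hy | hy)
      · obtain ⟨x, hx, rfl⟩ := hb.2.2 hy
        exact ⟨x, Or.inl hx, extId_mem (hX hx)⟩
      · exact ⟨y, Or.inr hy, extId_not hy⟩

lemma Itv.inter {A : Set (Fin n → E)} {K J : Set E} (hK : Itv A K) (hJ : Itv A J) :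
    Itv A (K ∩ J) := by
  intro X f hX hf hinj hA t ht
  have h1 := hK X f (fun x hx => (hX hx).1) (fun x hx => (hf hx).1) hinj hA
  have h2 := hJ (X ∪ (J \ K)) (extId K f) ?_ ?_ ?_ ?_ t ?_
  · rw [h2]
    have : (fun i => extId J (extId K f) (t i)) = (fun i => extId (K ∩ J) f (t i)) := by
      funext i
      rcases ht i with hi | hi
      · rw [extId_mem (hX hi).2, extId_mem (hX hi).1, extId_mem (hX hi)]
      · rw [extId_not (D := K ∩ J) hi]
        by_cases hj : t i ∈ J
        · have hk : t i ∉ K := fun hk => hi ⟨hk, hj⟩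
          rw [extId_mem hj, extId_not hk]
        · rw [extId_not hj]
    rw [this]
  · rintro x (hx | hx)
    · exact (hX hx).2
    · exact hx.1
  · rintro x (hx | hx)
    · rw [extId_mem (hX hx).1]; exact (hf hx).2
    · rw [extId_not hx.2]; exact hx.1
  · rintro x hx y hy hxy
    rcases hx with hx | hx <;> rcases hy with hy | hy
    · rw [extId_mem (hX hx).1, extId_mem (hX hy).1] at hxy
      exact hinj hx hy hxy
    · rw [extId_mem (hX hx).1, extId_not hy.2] at hxy
      exact absurd (hf hx).1 (by rw [hxy]; exact hy.2)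
    · rw [extId_not hx.2, extId_mem (hX hy).1] at hxy
      exact absurd (hf hy).1 (by rw [← hxy]; exact hx.2)
    · rw [extId_not hx.2, extId_not hy.2] at hxy
      exact hxy
  · intro t ht
    exact h1 t (fun i => (ht i).imp id (fun h => h.2))
  · intro i
    rcases ht i with hi | hi
    · exact Or.inl (Or.inl hi)
    · by_cases hj : t i ∈ J
      · exact Or.inl (Or.inr ⟨hj, fun hk => hi ⟨hk, hj⟩⟩)
      · exact Or.inr hj

end

section

variable {E : Type u} {k : ℕ}

/-- the type of a `k`-tuple: its equalities and the tuples of its entries which are in `A` -/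
def tp (A : Set (Fin (k + 1) → E)) (u : Fin k → E) :
    Set (Fin k × Fin k) × Set (Fin (k + 1) → Fin k) :=
  ({p | u p.1 = u p.2}, {s | (fun i => u (s i)) ∈ A})

/-- the types realised in `K` -/
def tps (A : Set (Fin (k + 1) → E)) (K : Set E) :
    Set (Set (Fin k × Fin k) × Set (Fin (k + 1) → Fin k)) :=
  {T | ∃ u : Fin k → E, (∀ j, u j ∈ K) ∧ tp A u = T}

/-- the number of types realised in `K` -/
noncomputable def rk (A : Set (Fin (k + 1) → E)) (K : Set E) : ℕ := (tps A K).ncard

lemma tps_mono (A : Set (Fin (k + 1) → E)) {K L : Set E} (h : K ⊆ L) : tps A K ⊆ tps A L := by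
  rintro T ⟨u, hu, rfl⟩
  exact ⟨u, fun j => h (hu j), rfl⟩

lemma rk_mono (A : Set (Fin (k + 1) → E)) {K L : Set E} (h : K ⊆ L) : rk A K ≤ rk A L :=
  Set.ncard_le_ncard (tps_mono A h) (Set.toFinite _)

lemma Itv.diff {A : Set (Fin (k + 1) → E)} {M K : Set E} (hM : Itv A M) (hK : Itv A K)
    (hT : tps A K ⊆ tps A (K \ M)) : Itv A (M \ K) := by
  intro X f hX hf hinj hA t ht
  -- the first case
  have case1 : ∀ t : Fin (k + 1) → E, (∀ i, t i ∈ X ∪ Mᶜ) →
      (t ∈ A ↔ (fun i => extId (M \ K) f (t i)) ∈ A) := by
    intro t ht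
    have h := hM X f (fun x hx => (hX hx).1) (fun x hx => (hf hx).1) hinj hA t ht
    rw [h]
    have : (fun i => extId M f (t i)) = (fun i => extId (M \ K) f (t i)) := by
      funext i
      rcases ht i with hi | hi
      · rw [extId_mem (hX hi).1, extId_mem (hX hi)]
      · rw [extId_not hi, extId_not (fun h => hi h.1)]
    rw [this]
  by_cases h0 : ∃ i0, t i0 ∈ X
  · by_cases h1 : ∃ i1, t i1 ∈ K
    · obtain ⟨i0, hi0⟩ := h0
      obtain ⟨i1, hi1⟩ := h1
      let w : Fin k → E := fun j => if t (i0.succAbove j) ∈ K then t (i0.succAbove j) else t i1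
      have hw : ∀ j, w j ∈ K := by
        intro j
        by_cases h : t (i0.succAbove j) ∈ K
        · simp [w, h]
        · simp [w, h, hi1]
      obtain ⟨v, hv, hvt⟩ := hT ⟨w, hw, rfl⟩
      have hEq : ∀ a b, (v a = v b ↔ w a = w b) := by
        intro a b
        have := congrArg Prod.fst hvt
        have h2 : ((a, b) ∈ (tp A v).1) ↔ ((a, b) ∈ (tp A w).1) := by rw [this]
        exact h2
      have hRel : ∀ s : Fin (k + 1) → Fin k,
          ((fun i => v (s i)) ∈ A ↔ (fun i => w (s i)) ∈ A) := by
        intro s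
        have := congrArg Prod.snd hvt
        have h2 : (s ∈ (tp A v).2) ↔ (s ∈ (tp A w).2) := by rw [this]
        exact h2
      let g : E → E := fun z => if h : ∃ j, w j = z then v h.choose else z
      have hg : ∀ j, g (w j) = v j := by
        intro j
        have h : ∃ j', w j' = w j := ⟨j, rfl⟩
        have : g (w j) = v h.choose := by simp only [g, h, dif_pos]
        rw [this]
        exact (hEq _ _).2 h.choose_spec
      have hKg := hK (Set.range w) g (by rintro _ ⟨j, rfl⟩; exact hw j)
        (by rintro _ ⟨j, rfl⟩; rw [hg j]; exact (hv j).1)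
        (by
          rintro _ ⟨a, rfl⟩ _ ⟨b, rfl⟩ hab
          rw [hg a, hg b] at hab
          exact (hEq _ _).1 hab)
        (by
          intro t' ht'
          choose s hs using ht'
          have e1 : t' = fun i => w (s i) := by funext i; exact (hs i).symm
          have e2 : (fun i => g (t' i)) = fun i => v (s i) := by
            funext i; rw [← hs i, hg]
          rw [e2, e1]
          exact (hRel s).symm)
      -- entries of `t` in `K` are values of `w`
      have hwt : ∀ i, t i ∈ K → ∃ j, w j = t i := by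
        intro i hi
        have hne : i ≠ i0 := by
          rintro rfl
          exact (hX hi0).2 hi
        obtain ⟨j, hj⟩ := Fin.exists_succAbove_eq hne
        refine ⟨j, ?_⟩
        simp only [w, hj, hi, if_pos]
      have step1 := hKg t (by
        intro i
        by_cases hi : t i ∈ K
        · exact Or.inl (hwt i hi)
        · exact Or.inr hi)
      have step2 := case1 (fun i => extId K g (t i)) (by
        intro i
        by_cases hi : t i ∈ K
        · obtain ⟨j, hj⟩ := hwt i hi
          refine Or.inr ?_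
          show extId K g (t i) ∉ M
          rw [extId_mem hi, ← hj, hg]
          exact (hv j).2
        · show extId K g (t i) ∈ X ∪ Mᶜ
          rw [extId_not hi]
          rcases ht i with h | h
          · exact Or.inl h
          · exact Or.inr (fun hm => h ⟨hm, hi⟩))
      have step3 := hKg (fun i => extId (M \ K) f (t i)) (by
        intro i
        show extId (M \ K) f (t i) ∈ range w ∪ Kᶜ
        rcases ht i with h | h
        · rw [extId_mem (hX h)]
          exact Or.inr (hf h).2
        · rw [extId_not h]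
          by_cases hi : t i ∈ K
          · exact Or.inl (hwt i hi)
          · exact Or.inr hi)
      rw [step1, step2, step3]
      have : (fun i => extId (M \ K) f (extId K g (t i))) =
          (fun i => extId K g (extId (M \ K) f (t i))) := by
        funext i
        rcases ht i with h | h
        · have hk : t i ∉ K := (hX h).2
          rw [extId_not (D := K) hk, extId_mem (hX h), extId_not (D := K) (hf h).2]
        · rw [extId_not (D := M \ K) (x := t i) h]
          by_cases hi : t i ∈ K
          · obtain ⟨j, hj⟩ := hwt i hi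
            have e : extId K g (t i) = v j := by rw [extId_mem hi, ← hj, hg]
            rw [e, extId_not (fun h => h.2 (hv j).1)]
          · rw [extId_not (D := K) hi, extId_not (D := M \ K) h]
      rw [this]
    · push Not at h1
      exact case1 t (fun i => (ht i).imp id (fun h hm => h ⟨hm, h1 i⟩))
  · push Not at h0
    have : (fun i => extId (M \ K) f (t i)) = t := by
      funext i
      rcases ht i with h | h
      · exact absurd h (h0 i)
      · exact extId_not h
    rw [this]

/-- finite disjoint unions of intervals of rank less than `r` -/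
inductive Good (A : Set (Fin (k + 1) → E)) (r : ℕ) : Set E → Prop
  | empty : Good A r ∅
  | add {K U : Set E} : Itv A K → rk A K < r → Good A r U → Disjoint K U → Good A r (K ∪ U)

lemma Good.mono {A : Set (Fin (k + 1) → E)} {r s : ℕ} (hrs : r ≤ s) {U : Set E}
    (h : Good A r U) : Good A s U := by
  induction h with
  | empty => exact Good.empty
  | add h1 h2 _ h4 ih => exact Good.add h1 (h2.trans_le hrs) ih h4

lemma Good.union {A : Set (Fin (k + 1) → E)} {r : ℕ} {U V : Set E}
    (hU : Good A r U) (hV : Good A r V) (hd : Disjoint U V) : Good A r (U ∪ V) := by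
  induction hU with
  | empty => simpa using hV
  | @add K U h1 h2 _ h4 ih =>
    have hd' := Set.disjoint_union_left.1 hd
    rw [Set.union_assoc]
    exact Good.add h1 h2 (ih hd'.2) (Set.disjoint_union_right.2 ⟨h4, hd'.1⟩)

lemma add_one {A : Set (Fin (k + 1) → E)}
    (hc : ∀ D : Set E, Itv A D →
      ∃ F : Set (Set E), F.Finite ∧ (∀ I ∈ F, Itv A I) ∧ ⋃₀ F = Dᶜ)
    {r : ℕ}
    (ih : ∀ r' < r, ∀ F : Set (Set E), F.Finite → (∀ I ∈ F, Itv A I ∧ rk A I < r') →
      Good A r' (⋃₀ F))
    {U : Set E} (hU : Good A r U) :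
    ∀ N : Set E, Itv A N → rk A N < r → Good A r (N ∪ U) := by
  induction hU with
  | empty => exact fun N hN hr => Good.add hN hr Good.empty (Set.disjoint_empty N)
  | @add K U h1 h2 _ h4 ihU =>
    intro N hN hr
    by_cases hT : tps A K ⊆ tps A (K \ N)
    · have hN1 : Itv A (N \ K) := Itv.diff hN h1 hT
      have hg := ihU (N \ K) hN1 ((rk_mono A sdiff_subset).trans_lt hr)
      have := Good.add h1 h2 hg (Set.disjoint_union_right.2 ⟨disjoint_sdiff_right, h4⟩)
      have e : K ∪ (N \ K ∪ U) = N ∪ (K ∪ U) := by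
        ext x
        simp only [Set.mem_union, Set.mem_sdiff]
        tauto
      rwa [e] at this
    · have hlt : rk A (K \ N) < rk A K :=
        Set.ncard_lt_ncard ⟨tps_mono A sdiff_subset, hT⟩ (Set.toFinite _)
      obtain ⟨F, hF, hFI, hFU⟩ := hc N hN
      have hgK : Good A (rk A K) (⋃₀ ((fun J => K ∩ J) '' F)) := by
        refine ih (rk A K) h2 _ (hF.image _) ?_
        rintro _ ⟨J, hJ, rfl⟩
        refine ⟨h1.inter (hFI J hJ), lt_of_le_of_lt (rk_mono A ?_) hlt⟩
        intro x hx
        refine ⟨hx.1, ?_⟩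
        have : x ∈ ⋃₀ F := ⟨J, hJ, hx.2⟩
        rw [hFU] at this
        exact this
      have e : ⋃₀ ((fun J => K ∩ J) '' F) = K \ N := by
        ext x
        simp only [Set.mem_sUnion, Set.mem_image, Set.mem_sdiff]
        constructor
        · rintro ⟨_, ⟨J, hJ, rfl⟩, hx⟩
          refine ⟨hx.1, ?_⟩
          have : x ∈ ⋃₀ F := ⟨J, hJ, hx.2⟩
          rw [hFU] at this
          exact this
        · rintro ⟨hxK, hxN⟩
          have : x ∈ ⋃₀ F := by rw [hFU]; exact hxN
          obtain ⟨J, hJ, hxJ⟩ := this
          exact ⟨K ∩ J, ⟨J, hJ, rfl⟩, hxK, hxJ⟩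
      rw [e] at hgK
      have hg2 := ihU N hN hr
      have := (hgK.mono h2.le).union hg2
        (Set.disjoint_union_right.2 ⟨disjoint_sdiff_left, h4.mono_left sdiff_subset⟩)
      have e2 : K \ N ∪ (N ∪ U) = N ∪ (K ∪ U) := by
        ext x
        simp only [Set.mem_union, Set.mem_sdiff]
        tauto
      rwa [e2] at this

lemma good_sUnion {A : Set (Fin (k + 1) → E)}
    (hc : ∀ D : Set E, Itv A D →
      ∃ F : Set (Set E), F.Finite ∧ (∀ I ∈ F, Itv A I) ∧ ⋃₀ F = Dᶜ) (r : ℕ) :
    ∀ F : Set (Set E), F.Finite → (∀ I ∈ F, Itv A I ∧ rk A I < r) → Good A r (⋃₀ F) := by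
  induction r using Nat.strong_induction_on with
  | _ r ih =>
    intro F hF
    induction F, hF using Set.Finite.induction_on with
    | empty => intro _; simpa using Good.empty
    | @insert N S _ _ ihS =>
      intro h
      rw [Set.sUnion_insert]
      exact add_one hc ih (ihS (fun I hI => h I (Set.mem_insert_of_mem _ hI))) N
        (h N (Set.mem_insert _ _)).1 (h N (Set.mem_insert _ _)).2

lemma Good.extract {A : Set (Fin (k + 1) → E)} {r : ℕ} {U : Set E} (h : Good A r U) :
    ∃ F : Set (Set E), F.Finite ∧ (∀ I ∈ F, Itv A I) ∧ F.PairwiseDisjoint id ∧ ⋃₀ F = U := by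
  induction h with
  | empty => exact ⟨∅, Set.finite_empty, by simp, by simp, by simp⟩
  | @add K U h1 _ _ h4 ih =>
    obtain ⟨F, hF, hI, hd, hU⟩ := ih
    refine ⟨insert K F, hF.insert K, ?_, ?_, ?_⟩
    · rintro I (rfl | hI')
      · exact h1
      · exact hI I hI'
    · rw [Set.pairwiseDisjoint_insert]
      refine ⟨hd, fun J hJ _ => ?_⟩
      exact h4.mono_right (by rw [← hU]; exact Set.subset_sUnion_of_mem hJ)
    · rw [Set.sUnion_insert, hU]

end

/-- **Main theorem.**  If `A` is a compactible relation of arity `n ≥ 1` on `E`, then the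
complement of every interval is a union of finitely many pairwise disjoint intervals. -/
theorem result {E : Type u} {n : ℕ} (hn : 1 ≤ n) (A : Set (Fin n → E)) (hA : Compactible A)
    (D : Set E) (hD : IsInterval A D) :
    ∃ F : Set (Set E), F.Finite ∧ (∀ I ∈ F, IsInterval A I) ∧ F.PairwiseDisjoint id ∧
      ⋃₀ F = Dᶜ := by
  obtain ⟨k, rfl⟩ : ∃ k, n = k + 1 := ⟨n - 1, by omega⟩
  have hc : ∀ D : Set E, Itv A D →
      ∃ F : Set (Set E), F.Finite ∧ (∀ I ∈ F, Itv A I) ∧ ⋃₀ F = Dᶜ := by
    intro D hD
    obtain ⟨F, h1, h2, h3⟩ := hA D ((itv_iff A D).2 hD)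
    exact ⟨F, h1, fun I hI => (itv_iff A I).1 (h2 I hI), h3⟩
  obtain ⟨F, h1, h2, h3⟩ := hc D ((itv_iff A D).1 hD)
  have hg := good_sUnion hc
    ((Set.univ : Set (Set (Fin k × Fin k) × Set (Fin (k + 1) → Fin k))).ncard + 1) F h1
    (fun I hI => ⟨h2 I hI, Nat.lt_succ_of_le
      (Set.ncard_le_ncard (Set.subset_univ _) (Set.toFinite _))⟩)
  rw [h3] at hg
  obtain ⟨G, g1, g2, g3, g4⟩ := hg.extract
  exact ⟨G, g1, fun I hI => (itv_iff A I).2 (g2 I hI), g3, g4⟩

end Pool.Agent.Results.MP_a8ef43_co.DisjointComplements
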